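import Pool.Agent.Y782.UG.Stm

/-! UG-L12, UG-L34 (jobs 4678, 4679, helper657 for helper782): Stieltjes transforms near a real
point -/

set_option autoImplicit false

open MeasureTheory ProbabilityTheory Filter Topology
open scoped ENNReal BigOperators

namespace Pool.Agent.Y657.UG

open Pool.Agent.Y782.UG

/-- the kernel -/
noncomputable def kf (lam ε x : ℝ) : ℂ := 1 / ((x : ℂ) - pt lam ε)

theorem kf_den {lam ε : ℝ} (x : ℝ) :
    (x : ℂ) - pt lam ε = ((x - lam : ℝ) : ℂ) - (ε : ℂ) * Complex.I := by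
  unfold pt
  push_cast
  ring

theorem den_re (y ε : ℝ) : ((y : ℂ) - (ε : ℂ) * Complex.I).re = y := by simp

theorem den_im (y ε : ℝ) : ((y : ℂ) - (ε : ℂ) * Complex.I).im = -ε := by simp

theorem den_sq (y ε : ℝ) : Complex.normSq ((y : ℂ) - (ε : ℂ) * Complex.I) = y ^ 2 + ε ^ 2 := by
  rw [Complex.normSq_apply, den_re, den_im]
  ring

theorem kf_re (lam ε x : ℝ) : (kf lam ε x).re = (x - lam) / ((x - lam) ^ 2 + ε ^ 2) := by
  unfold kf
  rw [kf_den, one_div, Complex.inv_re, den_sq, den_re]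

theorem kf_im (lam ε x : ℝ) : (kf lam ε x).im = ε / ((x - lam) ^ 2 + ε ^ 2) := by
  unfold kf
  rw [kf_den, one_div, Complex.inv_im, den_sq, den_im, neg_neg]

theorem kf_meas (lam ε : ℝ) : Measurable (kf lam ε) := by
  unfold kf
  exact measurable_const.div (Complex.measurable_ofReal.sub measurable_const)

theorem abs_im_le (y ε : ℝ) : |ε| ≤ ‖(y : ℂ) - (ε : ℂ) * Complex.I‖ := by
  have := Complex.abs_im_le_norm ((y : ℂ) - (ε : ℂ) * Complex.I)
  rwa [den_im, abs_neg] at this

theorem abs_re_le (y ε : ℝ) : |y| ≤ ‖(y : ℂ) - (ε : ℂ) * Complex.I‖ := by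
  have := Complex.abs_re_le_norm ((y : ℂ) - (ε : ℂ) * Complex.I)
  rwa [den_re] at this

theorem norm_kf_le {lam ε : ℝ} (hε : 0 < ε) (x : ℝ) : ‖kf lam ε x‖ ≤ 1 / ε := by
  unfold kf
  rw [kf_den, norm_div, norm_one]
  have h1 := abs_im_le (x - lam) ε
  rw [abs_of_pos hε] at h1
  exact one_div_le_one_div_of_le hε h1

theorem kf_int {μ : Measure ℝ} [IsProbabilityMeasure μ] {lam ε : ℝ} (hε : 0 < ε) :
    Integrable (kf lam ε) μ :=
  Integrable.of_bound (kf_meas lam ε).aestronglyMeasurable (1 / ε)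
    (Eventually.of_forall fun x => norm_kf_le hε x)

theorem G_eq (μ : Measure ℝ) (lam ε : ℝ) : G μ (pt lam ε) = ∫ x, kf lam ε x ∂μ := rfl

theorem l1 : S_L1 := by
  intro μ _ lam
  have hlim : (((μ.real {lam} : ℝ) : ℂ) * Complex.I) =
      ∫ x, Set.indicator {lam} (fun _ : ℝ => Complex.I) x ∂μ := by
    rw [integral_indicator_const _ (measurableSet_singleton lam)]
    rw [Complex.real_smul]
  have hfun : (fun ε : ℝ => (ε : ℂ) * G μ (pt lam ε)) =
      fun ε : ℝ => ∫ x, (ε : ℂ) * kf lam ε x ∂μ := by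
    funext ε
    rw [G_eq, integral_const_mul]
  rw [hlim, hfun]
  refine tendsto_integral_filter_of_dominated_convergence (fun _ => 1) ?_ ?_
    (integrable_const 1) ?_
  · exact Eventually.of_forall fun ε => ((kf_meas lam ε).const_mul _).aestronglyMeasurable
  · filter_upwards [self_mem_nhdsWithin] with ε hε
    refine Eventually.of_forall fun x => ?_
    have hε' : 0 < ε := hε
    rw [norm_mul, Complex.norm_real, Real.norm_eq_abs, abs_of_pos hε']
    calc ε * ‖kf lam ε x‖ ≤ ε * (1 / ε) := mul_le_mul_of_nonneg_left (norm_kf_le hε' x) hε'.le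
      _ = 1 := by field_simp
  · refine Eventually.of_forall fun x => ?_
    by_cases hx : x = lam
    · rw [hx, Set.indicator_of_mem (Set.mem_singleton lam)]
      refine Tendsto.congr' ?_ tendsto_const_nhds
      filter_upwards [self_mem_nhdsWithin] with ε hε
      have hε' : (ε : ℂ) ≠ 0 := by
        have : ε ≠ 0 := ne_of_gt hε
        exact_mod_cast this
      unfold kf
      rw [kf_den, sub_self, Complex.ofReal_zero, zero_sub]
      have hI := Complex.I_ne_zero
      field_simp
      rw [Complex.I_sq]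
    · rw [Set.indicator_of_notMem (by simpa using hx)]
      have hy : 0 < |x - lam| := abs_pos.2 (sub_ne_zero.2 hx)
      have h1 : Tendsto (fun ε : ℝ => |ε| * (1 / |x - lam|)) (𝓝[>] 0) (𝓝 0) := by
        have : Tendsto (fun ε : ℝ => |ε| * (1 / |x - lam|)) (𝓝 0) (𝓝 (|(0 : ℝ)| * (1 / |x - lam|))) :=
          (continuous_abs.tendsto 0).mul_const _
        rw [abs_zero, zero_mul] at this
        exact this.mono_left nhdsWithin_le_nhds
      refine squeeze_zero_norm (fun ε => ?_) h1
      rw [norm_mul, Complex.norm_real, Real.norm_eq_abs]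
      refine mul_le_mul_of_nonneg_left ?_ (abs_nonneg _)
      unfold kf
      rw [kf_den, norm_div, norm_one]
      exact one_div_le_one_div_of_le hy (abs_re_le _ _)

theorem ae_ne {μ : Measure ℝ} {lam : ℝ} (h : μ {lam} = 0) : ∀ᵐ x ∂μ, x ≠ lam := by
  have := measure_eq_zero_iff_ae_notMem.1 h
  filter_upwards [this] with x hx
  simpa using hx

theorem l2 : S_L2 := by
  intro μ _ lam hfin
  obtain ⟨h0, hint⟩ := hfin
  have hae := ae_ne h0
  -- integrability of `1 / y`
  have hint1 : Integrable (fun x : ℝ => 1 / (x - lam)) μ := by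
    refine Integrable.mono' ((integrable_const (1 : ℝ)).add hint)
      (measurable_const.div (measurable_id.sub measurable_const)).aestronglyMeasurable ?_
    refine Eventually.of_forall fun x => ?_
    rw [Real.norm_eq_abs, Pi.add_apply, abs_div, abs_one]
    have h1 : 0 ≤ (1 / |x - lam|) := by positivity
    have h2 : 1 / (x - lam) ^ 2 = (1 / |x - lam|) ^ 2 := by
      rw [div_pow, one_pow, sq_abs]
    rw [h2]
    nlinarith [sq_nonneg (1 / |x - lam| - 1)]
  refine ⟨?_, ?_, ?_⟩
  · unfold DD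
    have hnn : ∀ x : ℝ, 0 ≤ 1 / (x - lam) ^ 2 := fun x => by positivity
    rcases (integral_nonneg hnn : (0 : ℝ) ≤ ∫ x, 1 / (x - lam) ^ 2 ∂μ).eq_or_lt with h | h
    · exfalso
      have h1 := (integral_eq_zero_iff_of_nonneg hnn hint).1 h.symm
      have h2 : ∀ᵐ x ∂μ, False := by
        filter_upwards [h1, hae] with x hx hx'
        have h3 : (1 : ℝ) / (x - lam) ^ 2 = 0 := hx
        have h4 : (x - lam) ≠ 0 := sub_ne_zero.2 hx'
        rw [div_eq_zero_iff] at h3
        rcases h3 with h3 | h3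
        · exact one_ne_zero h3
        · exact h4 (pow_eq_zero_iff two_ne_zero |>.1 h3)
      have h5 : μ Set.univ = 0 := by
        rw [← Set.compl_empty, ← mem_ae_iff]
        · filter_upwards [h2] with x hx using hx.elim
      rw [measure_univ] at h5
      exact one_ne_zero h5
    · exact h
  · have hlim : ((rr lam μ : ℝ) : ℂ) = ∫ x, ((1 / (x - lam) : ℝ) : ℂ) ∂μ := by
      unfold rr
      exact integral_complex_ofReal.symm
    rw [hlim]
    refine tendsto_integral_filter_of_dominated_convergence (fun x => |1 / (x - lam)|) ?_ ?_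
      hint1.abs ?_
    · exact Eventually.of_forall fun ε => (kf_meas lam ε).aestronglyMeasurable
    · refine Eventually.of_forall fun ε => ?_
      filter_upwards [hae] with x hx
      have hy : 0 < |x - lam| := abs_pos.2 (sub_ne_zero.2 hx)
      change ‖kf lam ε x‖ ≤ _
      unfold kf
      rw [kf_den, norm_div, norm_one, abs_div, abs_one]
      exact one_div_le_one_div_of_le hy (abs_re_le _ _)
    · filter_upwards [hae] with x hx
      have hy : ((x - lam : ℝ) : ℂ) ≠ 0 := by
        have := sub_ne_zero.2 hx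
        exact_mod_cast this
      have h1 : Tendsto (fun ε : ℝ => ((x - lam : ℝ) : ℂ) - (ε : ℂ) * Complex.I) (𝓝 0)
          (𝓝 (((x - lam : ℝ) : ℂ) - ((0 : ℝ) : ℂ) * Complex.I)) :=
        tendsto_const_nhds.sub ((Complex.continuous_ofReal.tendsto 0).mul_const _)
      rw [Complex.ofReal_zero, zero_mul, sub_zero] at h1
      have h2 := (h1.mono_left (nhdsWithin_le_nhds (s := Set.Ioi 0))).inv₀ hy
      have h3 : ((1 / (x - lam) : ℝ) : ℂ) = (((x - lam : ℝ) : ℂ))⁻¹ := by
        push_cast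
        rw [one_div]
      rw [h3]
      refine h2.congr fun ε => ?_
      rw [← kf_den, one_div]
  · have hlim : (((DD lam μ : ℝ) : ℂ) * Complex.I) =
        ∫ x, ((1 / (x - lam) ^ 2 : ℝ) : ℂ) * Complex.I ∂μ := by
      unfold DD
      rw [integral_mul_const]
      congr 1
      exact integral_complex_ofReal.symm
    have hfun : (fun ε : ℝ => (G μ (pt lam ε) - ((rr lam μ : ℝ) : ℂ)) / (ε : ℂ)) =ᶠ[𝓝[>] 0]
        fun ε : ℝ => ∫ x, (kf lam ε x - ((1 / (x - lam) : ℝ) : ℂ)) / (ε : ℂ) ∂μ := by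
      filter_upwards [self_mem_nhdsWithin] with ε hε
      have hε' : 0 < ε := hε
      have e1 : ∫ x, (kf lam ε x - ((1 / (x - lam) : ℝ) : ℂ)) ∂μ =
          G μ (pt lam ε) - ((rr lam μ : ℝ) : ℂ) := by
        rw [integral_sub (f := kf lam ε) (g := fun x => ((1 / (x - lam) : ℝ) : ℂ))
          (kf_int hε') hint1.ofReal, G_eq]
        congr 1
        exact integral_complex_ofReal
      rw [integral_div, e1]
    rw [hlim]
    refine Tendsto.congr' hfun.symm ?_
    refine tendsto_integral_filter_of_dominated_convergence (fun x => 1 / (x - lam) ^ 2) ?_ ?_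
      hint ?_
    · refine Eventually.of_forall fun ε => ?_
      exact (((kf_meas lam ε).sub (Complex.measurable_ofReal.comp
        (measurable_const.div (measurable_id.sub measurable_const)))).div_const _).aestronglyMeasurable
    all_goals
      have key : ∀ ε : ℝ, 0 < ε → ∀ x : ℝ, x ≠ lam →
          (kf lam ε x - ((1 / (x - lam) : ℝ) : ℂ)) / (ε : ℂ) =
            Complex.I / (((x - lam : ℝ) : ℂ) * (((x - lam : ℝ) : ℂ) - (ε : ℂ) * Complex.I)) := by
        intro ε hε x hx
        have hy : ((x - lam : ℝ) : ℂ) ≠ 0 := by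
          have := sub_ne_zero.2 hx
          exact_mod_cast this
        have hε0 : (ε : ℂ) ≠ 0 := by exact_mod_cast hε.ne'
        have hd : ((x - lam : ℝ) : ℂ) - (ε : ℂ) * Complex.I ≠ 0 := by
          intro h
          have h1 := congrArg Complex.im h
          rw [den_im] at h1
          simp at h1
          exact hε.ne' h1
        have h3 : ((1 / (x - lam) : ℝ) : ℂ) = 1 / ((x - lam : ℝ) : ℂ) := by push_cast; rfl
        unfold kf
        rw [kf_den, h3, div_sub_div _ _ hd hy, div_div, div_eq_div_iff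
          (mul_ne_zero (mul_ne_zero hd hy) hε0) (mul_ne_zero hy hd)]
        ring
    · filter_upwards [self_mem_nhdsWithin] with ε hε
      filter_upwards [hae] with x hx
      have hy : 0 < |x - lam| := abs_pos.2 (sub_ne_zero.2 hx)
      rw [key ε hε x hx, norm_div, Complex.norm_I, norm_mul, Complex.norm_real, Real.norm_eq_abs]
      refine one_div_le_one_div_of_le (by positivity) ?_
      rw [← sq_abs (x - lam), pow_two]
      exact mul_le_mul_of_nonneg_left (abs_re_le _ _) hy.le
    · filter_upwards [hae] with x hx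
      have hy : ((x - lam : ℝ) : ℂ) ≠ 0 := by
        have := sub_ne_zero.2 hx
        exact_mod_cast this
      have h1 : Tendsto (fun ε : ℝ => ((x - lam : ℝ) : ℂ) - (ε : ℂ) * Complex.I) (𝓝 0)
          (𝓝 (((x - lam : ℝ) : ℂ) - ((0 : ℝ) : ℂ) * Complex.I)) :=
        tendsto_const_nhds.sub ((Complex.continuous_ofReal.tendsto 0).mul_const _)
      rw [Complex.ofReal_zero, zero_mul, sub_zero] at h1
      have h2 := ((h1.mono_left (nhdsWithin_le_nhds (s := Set.Ioi 0))).const_mul
        ((x - lam : ℝ) : ℂ)).inv₀ (mul_ne_zero hy hy)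
      have h3 := h2.const_mul Complex.I
      have h4 : ((1 / (x - lam) ^ 2 : ℝ) : ℂ) * Complex.I =
          Complex.I * (((x - lam : ℝ) : ℂ) * ((x - lam : ℝ) : ℂ))⁻¹ := by
        push_cast
        rw [one_div, pow_two, mul_comm]
      rw [h4]
      refine Tendsto.congr' ?_ h3
      filter_upwards [self_mem_nhdsWithin] with ε hε
      rw [key ε hε x hx, div_eq_mul_inv]

/-! ### The infinite case -/

/-- `Im G / ε` -/
noncomputable def TT (μ : Measure ℝ) (lam ε : ℝ) : ℝ := ∫ x, 1 / ((x - lam) ^ 2 + ε ^ 2) ∂μ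

theorem T_int {μ : Measure ℝ} [IsProbabilityMeasure μ] {lam ε : ℝ} (hε : 0 < ε) :
    Integrable (fun x : ℝ => 1 / ((x - lam) ^ 2 + ε ^ 2)) μ := by
  refine Integrable.of_bound (measurable_const.div (((measurable_id.sub measurable_const).pow_const
    2).add measurable_const)).aestronglyMeasurable (1 / ε ^ 2) (Eventually.of_forall fun x => ?_)
  rw [Real.norm_eq_abs, abs_of_nonneg (by positivity)]
  exact one_div_le_one_div_of_le (by positivity) (by nlinarith [sq_nonneg (x - lam)])

theorem im_G {μ : Measure ℝ} [IsProbabilityMeasure μ] {lam ε : ℝ} (hε : 0 < ε) :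
    (G μ (pt lam ε)).im / ε = TT μ lam ε := by
  have h1 : (∫ x, kf lam ε x ∂μ).im = ∫ x, (kf lam ε x).im ∂μ :=
    (integral_im (kf_int hε)).symm
  rw [G_eq, h1, TT]
  have h2 : ∀ x, (kf lam ε x).im = ε * (1 / ((x - lam) ^ 2 + ε ^ 2)) := by
    intro x
    rw [kf_im]
    ring
  rw [integral_congr_ae (Eventually.of_forall h2), integral_const_mul]
  field_simp

theorem l4 : S_L4 := by
  intro μ _ lam C hfr
  obtain ⟨e, he, heC⟩ := exists_seq_forall_of_frequently
    (hfr.and_eventually (self_mem_nhdsWithin (a := (0 : ℝ)) (s := Set.Ioi 0)))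
  have hpos : ∀ n, 0 < e n := fun n => (heC n).2
  have hT : ∀ n, TT μ lam (e n) ≤ C := fun n => by
    rw [← im_G (hpos n)]
    exact (heC n).1
  have he0 : Tendsto e atTop (𝓝 0) := he.mono_right nhdsWithin_le_nhds
  -- Fatou
  have hg : ∀ x : ℝ, Tendsto (fun n => ENNReal.ofReal (1 / ((x - lam) ^ 2 + e n ^ 2))) atTop
      (𝓝 (ENNReal.ofReal ((x - lam) ^ 2))⁻¹) := by
    intro x
    have h1 : Tendsto (fun n => (x - lam) ^ 2 + e n ^ 2) atTop (𝓝 ((x - lam) ^ 2)) := by
      have := (tendsto_const_nhds (x := (x - lam) ^ 2)).add (he0.pow 2)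
      simpa using this
    have h2 := (ENNReal.continuous_ofReal.tendsto _).comp h1
    have h3 := tendsto_inv_iff.2 h2
    refine h3.congr fun n => ?_
    have h4 : 0 < (x - lam) ^ 2 + e n ^ 2 := by have := hpos n; positivity
    simp only [Function.comp_apply]
    rw [one_div, ENNReal.ofReal_inv_of_pos h4]
  have hmeas : ∀ n, Measurable fun x : ℝ => ENNReal.ofReal (1 / ((x - lam) ^ 2 + e n ^ 2)) :=
    fun n => (measurable_const.div (((measurable_id.sub measurable_const).pow_const
      2).add measurable_const)).ennreal_ofReal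
  have hF : ∫⁻ x, (ENNReal.ofReal ((x - lam) ^ 2))⁻¹ ∂μ ≤ ENNReal.ofReal C := by
    have h1 : (fun x : ℝ => (ENNReal.ofReal ((x - lam) ^ 2))⁻¹) =
        fun x => liminf (fun n => ENNReal.ofReal (1 / ((x - lam) ^ 2 + e n ^ 2))) atTop := by
      funext x
      exact (hg x).liminf_eq.symm
    rw [h1]
    refine (lintegral_liminf_le hmeas).trans ?_
    refine liminf_le_of_le (by isBoundedDefault) fun b hb => ?_
    obtain ⟨n, hn⟩ := hb.exists
    refine hn.trans ?_
    rw [← ofReal_integral_eq_lintegral_ofReal (T_int (hpos n))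
      (Eventually.of_forall fun x => by positivity)]
    exact ENNReal.ofReal_le_ofReal (hT n)
  have hm2 : Measurable fun x : ℝ => (ENNReal.ofReal ((x - lam) ^ 2))⁻¹ :=
    ((measurable_id.sub measurable_const).pow_const 2).ennreal_ofReal.inv
  have hfin : ∀ᵐ x ∂μ, (ENNReal.ofReal ((x - lam) ^ 2))⁻¹ < ⊤ :=
    ae_lt_top hm2 (ne_top_of_le_ne_top ENNReal.ofReal_ne_top hF)
  have hne : ∀ᵐ x ∂μ, x ≠ lam := by
    filter_upwards [hfin] with x hx hxl
    rw [hxl] at hx
    simp at hx
  refine ⟨?_, ?_⟩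
  · rw [measure_eq_zero_iff_ae_notMem]
    filter_upwards [hne] with x hx
    simpa using hx
  · refine ⟨(measurable_const.div ((measurable_id.sub measurable_const).pow_const
      2)).aestronglyMeasurable, ?_⟩
    rw [hasFiniteIntegral_iff_ofReal (Eventually.of_forall fun x => by positivity)]
    refine lt_of_le_of_lt (lintegral_mono_ae ?_) (lt_of_le_of_lt hF ENNReal.ofReal_lt_top)
    filter_upwards [hne] with x hx
    have h4 : 0 < (x - lam) ^ 2 := by
      have := sub_ne_zero.2 hx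
      positivity
    rw [one_div, ENNReal.ofReal_inv_of_pos h4]

theorem re_G {μ : Measure ℝ} [IsProbabilityMeasure μ] {lam ε s δ : ℝ} (hε : 0 < ε) (hs : 0 < s)
    (hδ : 0 < δ) : |(G μ (pt lam ε)).re| ≤
      1 / δ + s / 2 * TT μ lam ε + 1 / (2 * s) * μ.real (Set.Icc (lam - δ) (lam + δ)) := by
  have h1 : (∫ x, kf lam ε x ∂μ).re = ∫ x, (kf lam ε x).re ∂μ :=
    (integral_re (kf_int hε)).symm
  rw [G_eq, h1]
  have hI : Integrable (fun x : ℝ => 1 / δ + s / 2 * (1 / ((x - lam) ^ 2 + ε ^ 2)) +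
      1 / (2 * s) * Set.indicator (Set.Icc (lam - δ) (lam + δ)) (fun _ => (1 : ℝ)) x) μ :=
    ((integrable_const _).add ((T_int hε).const_mul _)).add
      (((integrable_const (1 : ℝ)).indicator measurableSet_Icc).const_mul _)
  have h2 : |∫ x, (kf lam ε x).re ∂μ| ≤ ∫ x, (1 / δ + s / 2 * (1 / ((x - lam) ^ 2 + ε ^ 2)) +
      1 / (2 * s) * Set.indicator (Set.Icc (lam - δ) (lam + δ)) (fun _ => (1 : ℝ)) x) ∂μ := by
    rw [← Real.norm_eq_abs]
    refine norm_integral_le_of_norm_le hI (Eventually.of_forall fun x => ?_)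
    rw [Real.norm_eq_abs, kf_re, abs_div, abs_of_pos (show 0 < (x - lam) ^ 2 + ε ^ 2 by positivity)]
    have hd : 0 < (x - lam) ^ 2 + ε ^ 2 := by positivity
    have hT : 0 ≤ s / 2 * (1 / ((x - lam) ^ 2 + ε ^ 2)) := by positivity
    by_cases hx : x ∈ Set.Icc (lam - δ) (lam + δ)
    · rw [Set.indicator_of_mem hx]
      have h3 : |x - lam| / ((x - lam) ^ 2 + ε ^ 2) ≤
          s / 2 * (1 / ((x - lam) ^ 2 + ε ^ 2)) + 1 / (2 * s) * 1 := by
        have h4 : |x - lam| ≤ s / 2 + 1 / (2 * s) * ((x - lam) ^ 2 + ε ^ 2) := by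
          have h5 : 0 ≤ 1 / (2 * s) * (|x - lam| - s) ^ 2 := by positivity
          have h6 : 1 / (2 * s) * (|x - lam| - s) ^ 2 =
              1 / (2 * s) * (x - lam) ^ 2 - |x - lam| + s / 2 := by
            rw [← sq_abs (x - lam)]
            field_simp
            ring
          have h7 : 0 ≤ 1 / (2 * s) * ε ^ 2 := by positivity
          nlinarith
        calc |x - lam| / ((x - lam) ^ 2 + ε ^ 2) ≤
              (s / 2 + 1 / (2 * s) * ((x - lam) ^ 2 + ε ^ 2)) / ((x - lam) ^ 2 + ε ^ 2) :=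
              div_le_div_of_nonneg_right h4 hd.le
          _ = _ := by field_simp
      have h8 : 0 ≤ 1 / δ := by positivity
      linarith
    · rw [Set.indicator_of_notMem hx, mul_zero, add_zero]
      have h3 : δ < |x - lam| := by
        by_contra hc
        push Not at hc
        apply hx
        rw [abs_le] at hc
        exact ⟨by linarith [hc.1], by linarith [hc.2]⟩
      have h4 : |x - lam| / ((x - lam) ^ 2 + ε ^ 2) ≤ 1 / δ := by
        rw [div_le_div_iff₀ hd hδ, one_mul, ← sq_abs (x - lam)]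
        nlinarith [sq_nonneg ε, abs_nonneg (x - lam)]
      linarith
  refine h2.trans (le_of_eq ?_)
  rw [integral_add (f := fun x : ℝ => 1 / δ + s / 2 * (1 / ((x - lam) ^ 2 + ε ^ 2)))
    (g := fun x : ℝ => 1 / (2 * s) * Set.indicator (Set.Icc (lam - δ) (lam + δ))
      (fun _ => (1 : ℝ)) x) ((integrable_const _).add ((T_int hε).const_mul _))
    (((integrable_const (1 : ℝ)).indicator measurableSet_Icc).const_mul _),
    integral_add (f := fun _ : ℝ => 1 / δ)
      (g := fun x : ℝ => s / 2 * (1 / ((x - lam) ^ 2 + ε ^ 2)))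
      (integrable_const _) ((T_int hε).const_mul _), integral_const_mul,
    integral_const_mul, integral_indicator_const _ measurableSet_Icc, integral_const]
  simp [TT]

theorem l3 : S_L3 := by
  intro μ _ lam h0 hnf
  have hT : Tendsto (fun ε : ℝ => (G μ (pt lam ε)).im / ε) (𝓝[>] 0) atTop := by
    rw [tendsto_atTop]
    intro C
    by_contra hc
    apply hnf
    refine l4 μ lam C ?_
    rw [not_eventually] at hc
    exact hc.mono fun ε hε => (not_le.1 hε).le
  refine ⟨hT, ?_⟩
  have hη : Tendsto (fun δ => μ (Set.Icc (lam - δ) (lam + δ))) (𝓝[>] (0 : ℝ)) (𝓝 (μ {lam})) :=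
    tendsto_measure_Icc_nhdsWithin_right μ lam |>.mono_left (nhdsWithin_mono _ Set.Ioi_subset_Ici_self)
  rw [Metric.tendsto_nhds]
  intro a ha
  -- the choice of `δ`
  obtain ⟨δ, hδ0, hδ⟩ : ∃ δ : ℝ, 0 < δ ∧ μ.real (Set.Icc (lam - δ) (lam + δ)) ≤ a / 8 := by
    rw [h0] at hη
    have h1 : ∀ᶠ δ in 𝓝[>] (0 : ℝ), μ (Set.Icc (lam - δ) (lam + δ)) < ENNReal.ofReal (a / 8) :=
      hη.eventually (gt_mem_nhds (ENNReal.ofReal_pos.2 (by positivity)))
    obtain ⟨δ, h2, h3⟩ := (h1.and self_mem_nhdsWithin).exists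
    refine ⟨δ, h3, ?_⟩
    rw [Measure.real]
    exact ENNReal.toReal_le_of_le_ofReal (by positivity) h2.le
  have h1 := hT.eventually (eventually_gt_atTop (8 / (δ ^ 2 * a)))
  filter_upwards [h1, self_mem_nhdsWithin] with ε h2 hε
  have hε' : 0 < ε := hε
  rw [im_G hε'] at h2 ⊢
  have hTp : 0 < TT μ lam ε := lt_trans (by positivity) h2
  obtain ⟨s, hs⟩ : ∃ s, s = Real.sqrt (a / 8 / TT μ lam ε) := ⟨_, rfl⟩
  have hs0 : 0 < s := by rw [hs]; exact Real.sqrt_pos.2 (by positivity)
  have hs2 : s ^ 2 * TT μ lam ε = a / 8 := by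
    rw [hs, Real.sq_sqrt (by positivity)]
    field_simp
  have h3 := re_G (μ := μ) (lam := lam) hε' hs0 hδ0
  have h4 : |(G μ (pt lam ε)).re| ≤ 1 / δ + s * TT μ lam ε := by
    have h5 : 1 / (2 * s) * μ.real (Set.Icc (lam - δ) (lam + δ)) ≤ s / 2 * TT μ lam ε := by
      have h6 : s / 2 * TT μ lam ε = 1 / (2 * s) * (a / 8) := by
        rw [← hs2]
        field_simp
      rw [h6]
      exact mul_le_mul_of_nonneg_left hδ (by positivity)
    linarith
  have h5 : (G μ (pt lam ε)).re ^ 2 ≤ 2 / δ ^ 2 + 2 * (a / 8) * TT μ lam ε := by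
    have h6 : (G μ (pt lam ε)).re ^ 2 ≤ (1 / δ + s * TT μ lam ε) ^ 2 := by
      rw [← sq_abs]
      exact pow_le_pow_left₀ (abs_nonneg _) h4 2
    have h7 : (1 / δ + s * TT μ lam ε) ^ 2 ≤ 2 * (1 / δ) ^ 2 + 2 * (s * TT μ lam ε) ^ 2 := by
      nlinarith [sq_nonneg (1 / δ - s * TT μ lam ε)]
    have h8 : 2 * (1 / δ) ^ 2 + 2 * (s * TT μ lam ε) ^ 2 =
        2 / δ ^ 2 + 2 * (s ^ 2 * TT μ lam ε) * TT μ lam ε := by
      rw [div_pow, one_pow]
      ring
    rw [hs2] at h8
    linarith
  rw [Real.dist_eq, sub_zero, abs_of_nonneg (by positivity), div_lt_iff₀ hTp]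
  have h9 : 2 / δ ^ 2 < a / 4 * TT μ lam ε := by
    have h10 : 8 / (δ ^ 2 * a) * (a / 4) = 2 / δ ^ 2 := by
      field_simp
      norm_num
    rw [← h10, mul_comm]
    exact mul_lt_mul_of_pos_left h2 (by positivity)
  nlinarith

end Pool.Agent.Y657.UG
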